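import Pool.Agent.Helper77.SD.St

/-!
# Project SD, module CUT: cut-off functions
-/

set_option autoImplicit false

open Set Filter MeasureTheory Metric

namespace Pool.Agent.Helper99.SD
open Pool.Agent.Helper77.SD

theorem hCUT : StCUT := by
  intro d
  let φ : ContDiffBump (0 : E d) := ⟨1, 2, one_pos, by norm_num⟩
  have hφ : ContDiff ℝ (⊤ : ℕ∞) (φ : E d → ℝ) := φ.contDiff
  have hcs : HasCompactSupport (φ : E d → ℝ) := φ.hasCompactSupport
  obtain ⟨C, hC⟩ := (hcs.fderiv (𝕜 := ℝ)).exists_bound_of_continuous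
    (hφ.continuous_fderiv (by simp))
  have hC0 : 0 ≤ C := (norm_nonneg _).trans (hC 0)
  refine ⟨C + 1, by linarith, fun R hR => ?_⟩
  have hR0 : 0 < R := by linarith
  have hRi : 0 < R⁻¹ := inv_pos.2 hR0
  have hnorm : ∀ x : E d, ‖R⁻¹ • x‖ = ‖x‖ / R := by
    intro x; rw [norm_smul, Real.norm_of_nonneg hRi.le]; field_simp
  have hz : ∀ x : E d, 2 * R ≤ ‖x‖ → φ (R⁻¹ • x) = 0 := by
    intro x hx
    apply φ.zero_of_le_dist
    show (2 : ℝ) ≤ dist (R⁻¹ • x) 0
    rw [dist_zero_right, hnorm, le_div_iff₀ hR0]; exact hx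
  refine ⟨fun x => φ (R⁻¹ • x), ?_, ?_, ?_, ?_, hz, ?_⟩
  · exact hφ.comp (contDiff_id.const_smul R⁻¹)
  · apply HasCompactSupport.of_support_subset_isCompact (isCompact_closedBall (0 : E d) (2 * R))
    intro x hx
    rw [mem_closedBall, dist_zero_right]
    by_contra h
    exact hx (hz x (not_le.1 h).le)
  · intro x; exact ⟨φ.nonneg, φ.le_one⟩
  · intro x hx
    apply φ.one_of_mem_closedBall
    show R⁻¹ • x ∈ closedBall (0 : E d) 1
    rw [mem_closedBall, dist_zero_right, hnorm, div_le_one hR0]; exact hx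
  · intro x
    have hd : HasFDerivAt (φ : E d → ℝ) (fderiv ℝ φ (R⁻¹ • x)) (R⁻¹ • x) :=
      ((hφ.differentiable (by simp)) _).hasFDerivAt
    have h2 : HasFDerivAt (fun x : E d => R⁻¹ • x) (R⁻¹ • ContinuousLinearMap.id ℝ (E d)) x :=
      (hasFDerivAt_id x).const_smul R⁻¹
    have h3 := (hd.comp x h2).fderiv
    have h4 : fderiv ℝ (fun x : E d => φ (R⁻¹ • x)) x =
        (fderiv ℝ φ (R⁻¹ • x)).comp (R⁻¹ • ContinuousLinearMap.id ℝ (E d)) := h3
    show ‖gradient (fun x : E d => φ (R⁻¹ • x)) x‖ ≤ (C + 1) / R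
    unfold gradient
    rw [LinearIsometryEquiv.norm_map, h4, ContinuousLinearMap.comp_smul,
      ContinuousLinearMap.comp_id, norm_smul, Real.norm_of_nonneg hRi.le, div_eq_inv_mul]
    apply mul_le_mul_of_nonneg_left _ hRi.le
    linarith [hC (R⁻¹ • x)]

end Pool.Agent.Helper99.SD
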